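import Mathlib

set_option autoImplicit false

/-!
For every bounded open subset `U` of `ℝ^d` the generic continuous function on the closure of `U`
is nowhere differentiable along every unit speed `C¹` curve in `U`; more generally, along every
continuous curve in the closure of `U` it is differentiable at no parameter at which the curve has
a nonzero derivative.

The generic function `f` has the following property: for each coordinate `i` there are
arbitrarily large `n` and `δ, A > 0`, `n δ ≤ A`, such that `f` is, up to `A / 8`, the sum of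
`A cos (x_i / δ)` and of a function which oscillates by at most `A / 8` on sets of diameter `n δ`.
If the `i`-th coordinate of the derivative of the curve at `t` is not zero, then, by the
intermediate value theorem, the `i`-th coordinate of the curve runs through a full period of the
cosine within a time of order `δ`.
-/

open Filter Topology Set

namespace Pool.Agent.Results.MP_3b0c1c_an.GenericCurves

/-- `ℝ^d` with the Euclidean norm. -/
abbrev Eu (d : ℕ) : Type := EuclideanSpace ℝ (Fin d)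

/-- The value `f x` of a continuous function `f` on the closure of `U` at a point `x` of the
closure of `U` (and the junk value `0` if `x` is not in the closure of `U`). -/
noncomputable def val {d : ℕ} {U : Set (Eu d)} (f : C(closure U, ℝ)) (x : Eu d) : ℝ :=
  open Classical in if h : x ∈ closure U then f ⟨x, h⟩ else 0

/-- `c` is a unit speed `C¹` curve in `U`, defined on the interval `I` of positive length
(the values of `c` outside `I` are irrelevant; derivatives at end points of `I` that belong to `I`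
are one-sided). -/
def IsUnitSpeedC1 {d : ℕ} (U : Set (Eu d)) (I : Set ℝ) (c : ℝ → Eu d) : Prop :=
  I.OrdConnected ∧ I.Nontrivial ∧ ContDiffOn ℝ 1 c I ∧ MapsTo c I U ∧
    ∀ t ∈ I, ‖derivWithin c I t‖ = 1

/-- The set `N(U)` of all continuous functions on the closure of `U` whose restriction to every
unit speed `C¹` curve in `U` is nowhere differentiable. -/
def NU {d : ℕ} (U : Set (Eu d)) : Set C(closure U, ℝ) :=
  {f | ∀ (I : Set ℝ) (c : ℝ → Eu d), IsUnitSpeedC1 U I c →
    ∀ t ∈ I, ¬ DifferentiableWithinAt ℝ (fun s => val f (c s)) I t}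

/-- The set of all continuous functions `f` on the closure of `U` such that for every continuous
curve `c : I → closure U`, `I` an interval of positive length, the function `f ∘ c` is
differentiable at no `t ∈ I` at which `c` has a nonzero derivative. -/
def NC {d : ℕ} (U : Set (Eu d)) : Set C(closure U, ℝ) :=
  {f | ∀ (I : Set ℝ) (c : ℝ → Eu d), I.OrdConnected → I.Nontrivial → ContinuousOn c I →
    MapsTo c I (closure U) → ∀ t ∈ I, ∀ v : Eu d, v ≠ 0 → HasDerivWithinAt c v I t →
      ¬ DifferentiableWithinAt ℝ (fun s => val f (c s)) I t}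

/-! ### A full period of the cosine -/

lemma cos_osc_aux (φ : ℝ) : ∃ y ∈ Icc φ (φ + 2 * Real.pi), 1 ≤ |Real.cos y - Real.cos φ| := by
  have hpi := Real.pi_pos
  rcases le_total (Real.cos φ) 0 with h | h
  · refine ⟨⌈φ / (2 * Real.pi)⌉ * (2 * Real.pi), ⟨?_, ?_⟩, ?_⟩
    · have := Int.le_ceil (φ / (2 * Real.pi))
      rwa [div_le_iff₀ (by positivity)] at this
    · have := (Int.ceil_lt_add_one (φ / (2 * Real.pi))).le
      have h2 := mul_le_mul_of_nonneg_right this (by positivity : (0 : ℝ) ≤ 2 * Real.pi)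
      have h3 : (φ / (2 * Real.pi) + 1) * (2 * Real.pi) = φ + 2 * Real.pi := by
        field_simp
      rwa [h3] at h2
    · rw [Real.cos_int_mul_two_pi, le_abs]
      left; linarith
  · refine ⟨⌈(φ - Real.pi) / (2 * Real.pi)⌉ * (2 * Real.pi) + Real.pi, ⟨?_, ?_⟩, ?_⟩
    · have := Int.le_ceil ((φ - Real.pi) / (2 * Real.pi))
      rw [div_le_iff₀ (by positivity)] at this
      linarith
    · have := (Int.ceil_lt_add_one ((φ - Real.pi) / (2 * Real.pi))).le
      have h2 := mul_le_mul_of_nonneg_right this (by positivity : (0 : ℝ) ≤ 2 * Real.pi)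
      have h3 : ((φ - Real.pi) / (2 * Real.pi) + 1) * (2 * Real.pi) = φ - Real.pi + 2 * Real.pi := by
        field_simp
      rw [h3] at h2
      linarith
    · rw [Real.cos_add_pi, Real.cos_int_mul_two_pi, le_abs]
      right; linarith

lemma cos_osc (φ ψ : ℝ) (h : 2 * Real.pi ≤ |ψ - φ|) :
    ∃ y ∈ uIcc φ ψ, 1 ≤ |Real.cos y - Real.cos φ| := by
  rcases le_total φ ψ with hle | hle
  · rw [abs_of_nonneg (by linarith)] at h
    obtain ⟨y, hy, hy2⟩ := cos_osc_aux φ
    exact ⟨y, by rw [uIcc_of_le hle]; exact ⟨hy.1, by linarith [hy.2]⟩, hy2⟩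
  · rw [abs_of_nonpos (by linarith)] at h
    obtain ⟨y, hy, hy2⟩ := cos_osc_aux (-φ)
    refine ⟨-y, by rw [uIcc_of_ge hle]; exact ⟨by linarith [hy.2], by linarith [hy.1]⟩, ?_⟩
    rw [Real.cos_neg] at hy2 ⊢
    exact hy2

/-! ### The open dense sets -/

section

variable {d : ℕ} {U : Set (Eu d)}

/-- The function `x ↦ cos (x_i / δ)`. -/
noncomputable def wave (U : Set (Eu d)) (i : Fin d) (δ : ℝ) : C(closure U, ℝ) :=
  ⟨fun x => Real.cos ((x : Eu d) i / δ), by fun_prop⟩

variable [CompactSpace (closure U)]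

/-- The open dense sets. -/
def O (U : Set (Eu d)) [CompactSpace (closure U)] (i : Fin d) (n : ℕ) : Set C(closure U, ℝ) :=
  ⋃ p ∈ {p : ℝ × ℝ × C(closure U, ℝ) | 0 < p.1 ∧ p.1 < 1 / (n + 1) ∧ 0 < p.2.1 ∧
      n * p.1 ≤ p.2.1 ∧ ∀ x y : closure U, dist x y ≤ n * p.1 → |p.2.2 x - p.2.2 y| ≤ p.2.1 / 8},
    Metric.ball (p.2.2 + p.2.1 • wave U i p.1) (p.2.1 / 8)

lemma isOpen_O (i : Fin d) (n : ℕ) : IsOpen (O U i n) :=
  isOpen_biUnion fun _ _ => Metric.isOpen_ball

lemma norm_wave_le (i : Fin d) (δ : ℝ) : ‖wave U i δ‖ ≤ 1 := by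
  rw [ContinuousMap.norm_le _ zero_le_one]
  intro x
  exact Real.abs_cos_le_one _

lemma dense_O (i : Fin d) (n : ℕ) : Dense (O U i n) := by
  rw [Metric.dense_iff]
  intro f ε hε
  set A : ℝ := ε / 2 with hA
  have hApos : 0 < A := by positivity
  have huc : UniformContinuous f := CompactSpace.uniformContinuous_of_continuous f.continuous
  rw [Metric.uniformContinuous_iff] at huc
  obtain ⟨η, hη, hf⟩ := huc (A / 8) (by positivity)
  -- choose `δ`
  obtain ⟨δ, hδ0, hδ1, hδ2, hδ3⟩ : ∃ δ : ℝ, 0 < δ ∧ δ < 1 / (n + 1) ∧ n * δ ≤ A ∧ n * δ < η := by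
    refine ⟨min (min (1 / (2 * (n + 1))) (A / (n + 1))) (η / (n + 1)), by positivity, ?_, ?_, ?_⟩
    · refine lt_of_le_of_lt ((min_le_left _ _).trans (min_le_left _ _)) ?_
      rw [div_lt_div_iff₀ (by positivity) (by positivity)]
      have : (0 : ℝ) ≤ n := Nat.cast_nonneg n
      linarith
    · have h1 : (n : ℝ) * (A / (n + 1)) ≤ A := by
        rw [mul_div_assoc', div_le_iff₀ (by positivity)]
        nlinarith
      refine le_trans (mul_le_mul_of_nonneg_left ((min_le_left _ _).trans (min_le_right _ _))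
        (Nat.cast_nonneg n)) h1
    · have h1 : (n : ℝ) * (η / (n + 1)) < η := by
        rw [mul_div_assoc', div_lt_iff₀ (by positivity)]
        nlinarith
      refine lt_of_le_of_lt (mul_le_mul_of_nonneg_left (min_le_right _ _)
        (Nat.cast_nonneg n)) h1
  refine ⟨f + A • wave U i δ, ?_, ?_⟩
  · rw [Metric.mem_ball, dist_eq_norm, add_sub_cancel_left, norm_smul, Real.norm_of_nonneg hApos.le]
    have := mul_le_mul_of_nonneg_left (norm_wave_le (U := U) i δ) hApos.le
    linarith
  · refine mem_biUnion (x := (δ, A, f)) ⟨hδ0, hδ1, hApos, hδ2, fun x y hxy => ?_⟩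
      (Metric.mem_ball_self (by positivity))
    have := hf (a := x) (b := y) (lt_of_le_of_lt hxy hδ3)
    rw [Real.dist_eq] at this
    exact this.le

end

/-! ### The main estimate -/

lemma val_of_mem {d : ℕ} {U : Set (Eu d)} (f : C(closure U, ℝ)) {x : Eu d} (h : x ∈ closure U) :
    val f x = f ⟨x, h⟩ := by
  unfold val
  rw [dif_pos h]

lemma main_aux {d : ℕ} {U : Set (Eu d)} [CompactSpace (closure U)] (f : C(closure U, ℝ))
    (hf : ∀ i n, f ∈ O U i n) (s : ℝ) (hs : |s| = 1) (t r : ℝ) (hr : 0 < r) (c : ℝ → Eu d)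
    (hc : ContinuousOn (fun h => c (t + s * h)) (Icc 0 r))
    (hU : ∀ h ∈ Icc (0 : ℝ) r, c (t + s * h) ∈ closure U) (v : Eu d) (hv : v ≠ 0)
    (h1 : ∀ ε > 0, ∃ h₀ > 0, ∀ h, 0 ≤ h → h ≤ h₀ → h ≤ r →
      ‖c (t + s * h) - c t - (s * h) • v‖ ≤ ε * h) (M : ℝ)
    (h2 : ∃ h₀ > 0, ∀ h, 0 ≤ h → h ≤ h₀ → h ≤ r →
      |val f (c (t + s * h)) - val f (c t)| ≤ M * h) : False := by
  obtain ⟨i, hi⟩ : ∃ i, v i ≠ 0 := by
    by_contra hcon
    apply hv
    ext i
    by_contra hne
    exact hcon ⟨i, hne⟩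
  have hvi : 0 < |v i| := abs_pos.mpr hi
  have hvn : |v i| ≤ ‖v‖ := by
    have := EuclideanSpace.norm_eq v
    have h3 := PiLp.norm_apply_le v i
    simpa using h3
  have hvpos : 0 < ‖v‖ := lt_of_lt_of_le hvi hvn
  obtain ⟨a, ha0, ha⟩ := h1 (|v i| / 2) (by positivity)
  obtain ⟨b, hb0, hb⟩ := h2
  have hpi := Real.pi_pos
  -- choose `n`
  obtain ⟨n, hn⟩ := exists_nat_gt
    (4 * Real.pi / |v i| / a + 4 * Real.pi / |v i| / b + 4 * Real.pi / |v i| / r
      + 2 * ‖v‖ * (4 * Real.pi / |v i|) + 2 * (|M| + 1) * (4 * Real.pi / |v i|))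
  set q : ℝ := 4 * Real.pi / |v i| with hq
  have hqpos : 0 < q := by positivity
  have hfn := hf i n
  unfold O at hfn
  rw [mem_iUnion₂] at hfn
  obtain ⟨⟨δ, A, g⟩, ⟨hδ0, hδ1, hA0, hnA, hg⟩, hball⟩ := hfn
  simp only at hδ0 hδ1 hA0 hnA hg hball
  have pa : 0 < q / a := by positivity
  have pb : 0 < q / b := by positivity
  have pr : 0 < q / r := by positivity
  have pv : 0 < 2 * ‖v‖ * q := by positivity
  have pM : 0 < 2 * (|M| + 1) * q := by positivity
  -- `h = q δ`
  set h : ℝ := q * δ with hh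
  have hhpos : 0 < h := by positivity
  have key : ∀ z : ℝ, 0 < z → q / z < n → h ≤ z := by
    intro z hz hzn
    have e1 : q < n * z := by rwa [div_lt_iff₀ hz] at hzn
    have e2 : δ * (n + 1) < 1 := by rwa [lt_div_iff₀ (by positivity)] at hδ1
    have : h ≤ n * z * δ := mul_le_mul_of_nonneg_right e1.le hδ0.le
    nlinarith
  have hha : h ≤ a := key a ha0 (by linarith)
  have hhb : h ≤ b := key b hb0 (by linarith)
  have hhr : h ≤ r := key r hr (by linarith)
  -- the coordinate function
  have hcoord : ContinuousOn (fun u => c (t + s * u) i) (Icc 0 h) := by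
    have := (hc.mono (Icc_subset_Icc_right hhr))
    exact (PiLp.continuous_apply 2 (fun _ : Fin d => ℝ) i).comp_continuousOn this
  have hinc : 2 * Real.pi * δ ≤ |c (t + s * h) i - c (t + s * 0) i| := by
    have e1 := ha h hhpos.le hha hhr
    have e2 : |(c (t + s * h) - c t - (s * h) • v) i| ≤ ‖c (t + s * h) - c t - (s * h) • v‖ := by
      have h3 := PiLp.norm_apply_le (c (t + s * h) - c t - (s * h) • v) i
      simpa using h3
    have e3 : (c (t + s * h) - c t - (s * h) • v) i
        = (c (t + s * h) i - c (t + s * 0) i) - s * h * v i := by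
      simp
    rw [e3] at e2
    have e4 : |s * h * v i| = h * |v i| := by
      rw [abs_mul, abs_mul, hs, one_mul, abs_of_pos hhpos]
    have e5 : |s * h * v i| - |c (t + s * h) i - c (t + s * 0) i|
        ≤ |(c (t + s * h) i - c (t + s * 0) i) - s * h * v i| := by
      have e8 := abs_sub_abs_le_abs_sub (s * h * v i) (c (t + s * h) i - c (t + s * 0) i)
      rwa [abs_sub_comm (s * h * v i)] at e8
    rw [e4] at e5
    have e6 : h * |v i| = 4 * Real.pi * δ := by
      rw [hh, hq]; field_simp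
    have e7 : |v i| / 2 * h = 2 * Real.pi * δ := by
      rw [hh, hq]; field_simp; ring
    linarith
  -- a full period
  obtain ⟨y, hy, hycos⟩ := cos_osc (c (t + s * 0) i / δ) (c (t + s * h) i / δ) (by
    rw [← sub_div, abs_div, abs_of_pos hδ0, le_div_iff₀ hδ0]
    exact hinc)
  have hy' : y * δ ∈ uIcc (c (t + s * 0) i) (c (t + s * h) i) := by
    rw [mem_uIcc] at hy ⊢
    rcases hy with ⟨p1, p2⟩ | ⟨p1, p2⟩
    · left
      rw [div_le_iff₀ hδ0] at p1
      rw [le_div_iff₀ hδ0] at p2
      exact ⟨p1, p2⟩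
    · right
      rw [div_le_iff₀ hδ0] at p1
      rw [le_div_iff₀ hδ0] at p2
      exact ⟨p1, p2⟩
  have hivt := intermediate_value_uIcc (f := fun u => c (t + s * u) i) (a := 0) (b := h)
    (by rw [uIcc_of_le hhpos.le]; exact hcoord)
  obtain ⟨u, hu, hyu⟩ := hivt hy'
  rw [uIcc_of_le hhpos.le] at hu
  simp only at hyu
  have hycos' : 1 ≤ |Real.cos (c (t + s * u) i / δ) - Real.cos (c t i / δ)| := by
    rw [hyu, mul_div_assoc, div_self hδ0.ne', mul_one]
    simpa using hycos
  -- conclusion
  have hmu : c (t + s * u) ∈ closure U := hU u ⟨hu.1, hu.2.trans hhr⟩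
  have hm0 : c t ∈ closure U := by simpa using hU 0 ⟨le_rfl, hr.le⟩
  have hval := hb u hu.1 (hu.2.trans hhb) (hu.2.trans hhr)
  rw [val_of_mem f hmu, val_of_mem f hm0] at hval
  set X : closure U := ⟨c (t + s * u), hmu⟩ with hX
  set Y : closure U := ⟨c t, hm0⟩ with hY
  have hd : dist X Y ≤ n * δ := by
    have e1 := ha u hu.1 (hu.2.trans hha) (hu.2.trans hhr)
    have e2 : ‖c (t + s * u) - c t‖ ≤ ‖c (t + s * u) - c t - (s * u) • v‖ + ‖(s * u) • v‖ := by
      have := norm_add_le (c (t + s * u) - c t - (s * u) • v) ((s * u) • v)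
      simpa using this
    have e3 : ‖(s * u) • v‖ = u * ‖v‖ := by
      rw [norm_smul, norm_mul, Real.norm_eq_abs, Real.norm_eq_abs, hs, one_mul,
        abs_of_nonneg hu.1]
    have e4 : dist X Y = ‖c (t + s * u) - c t‖ := by
      rw [Subtype.dist_eq, dist_eq_norm]
    rw [e4]
    have e5 : ‖c (t + s * u) - c t‖ ≤ 2 * ‖v‖ * h := by
      have : |v i| / 2 * u ≤ ‖v‖ / 2 * h := by
        have := mul_le_mul (div_le_div_of_nonneg_right hvn (by norm_num : (0:ℝ) ≤ 2)) hu.2 hu.1
          (by positivity)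
        exact this
      have h5 : u * ‖v‖ ≤ h * ‖v‖ := mul_le_mul_of_nonneg_right hu.2 (norm_nonneg _)
      have h6 : 0 ≤ ‖v‖ * h := by positivity
      rw [e3] at e2
      nlinarith
    have e6 : 2 * ‖v‖ * h ≤ n * δ := by
      rw [hh]
      have : 2 * ‖v‖ * q ≤ n := by linarith
      nlinarith
    linarith
  have hgXY := hg X Y hd
  have hb1 : ∀ Z : closure U, |f Z - (g Z + A * Real.cos ((Z : Eu d) i / δ))| ≤ A / 8 := by
    intro Z
    have e1 := ContinuousMap.dist_apply_le_dist (f := f) (g := g + A • wave U i δ) Z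
    rw [Metric.mem_ball] at hball
    have e2 := (e1.trans hball.le)
    rw [Real.dist_eq] at e2
    exact e2
  have bX := hb1 X
  have bY := hb1 Y
  rw [abs_le] at bX bY hgXY hval
  have hMle : M * u ≤ |M| * h := by
    calc M * u ≤ |M| * u := mul_le_mul_of_nonneg_right (le_abs_self M) hu.1
      _ ≤ |M| * h := mul_le_mul_of_nonneg_left hu.2 (abs_nonneg M)
  have hfin : 2 * (|M| + 1) * h ≤ A := by
    have : 2 * (|M| + 1) * q ≤ n := by linarith
    calc 2 * (|M| + 1) * h = 2 * (|M| + 1) * q * δ := by rw [hh]; ring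
      _ ≤ n * δ := mul_le_mul_of_nonneg_right this hδ0.le
      _ ≤ A := hnA
  have hXc : (X : Eu d) = c (t + s * u) := rfl
  have hYc : (Y : Eu d) = c t := rfl
  rw [hXc] at bX
  rw [hYc] at bY
  have hMh : 0 ≤ |M| * h := by positivity
  rcases le_abs.mp hycos' with hcs | hcs
  · have := mul_le_mul_of_nonneg_left hcs hA0.le
    nlinarith
  · have := mul_le_mul_of_nonneg_left hcs hA0.le
    nlinarith

lemma mem_NC {d : ℕ} {U : Set (Eu d)} [CompactSpace (closure U)] (f : C(closure U, ℝ))
    (hf : ∀ i n, f ∈ O U i n) : f ∈ NC U := by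
  intro I c hI hI2 hc hU t ht v hv hder hdiff
  -- a one-sided interval at `t`
  obtain ⟨s, r, hs, hr, hsub⟩ : ∃ s r : ℝ, |s| = 1 ∧ 0 < r ∧
      ∀ h ∈ Icc (0 : ℝ) r, t + s * h ∈ I := by
    obtain ⟨t', ht', hne⟩ := hI2.exists_ne t
    rcases lt_or_gt_of_ne hne with hlt | hgt
    · refine ⟨-1, t - t', by simp, by linarith, fun h hh => ?_⟩
      exact hI.out ht' ht ⟨by linarith [hh.2], by linarith [hh.1]⟩
    · refine ⟨1, t' - t, by simp, by linarith, fun h hh => ?_⟩
      exact hI.out ht ht' ⟨by linarith [hh.1], by linarith [hh.2]⟩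
  have hdF := hdiff.hasDerivWithinAt
  set L := derivWithin (fun s => val f (c s)) I t with hL
  have hmap : ∀ h₀ > 0, ∀ᶠ z in 𝓝[I] t, |z - t| < h₀ := by
    intro h₀ hh₀
    refine mem_nhdsWithin_of_mem_nhds ?_
    have := Metric.ball_mem_nhds t hh₀
    filter_upwards [this] with z hz
    rwa [Metric.mem_ball, Real.dist_eq] at hz
  -- quantitative form of differentiability
  have quant : ∀ {F : Type} [NormedAddCommGroup F] [NormedSpace ℝ F] (G : ℝ → F) (w : F),
      HasDerivWithinAt G w I t → ∀ ε > 0, ∃ h₀ > 0, ∀ h, 0 ≤ h → h ≤ h₀ → h ≤ r →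
        ‖G (t + s * h) - G t - (s * h) • w‖ ≤ ε * h := by
    intro F _ _ G w hG ε hε
    have h3 := (hasDerivWithinAt_iff_isLittleO.mp hG).def hε
    rw [Filter.Eventually, mem_nhdsWithin_iff_exists_mem_nhds_inter] at h3
    obtain ⟨V, hV, hVs⟩ := h3
    obtain ⟨ρ, hρ, hρV⟩ := Metric.mem_nhds_iff.mp hV
    refine ⟨ρ / 2, by positivity, fun h h0 h1 h2 => ?_⟩
    have hmem : t + s * h ∈ V ∩ I := by
      refine ⟨hρV ?_, hsub h ⟨h0, h2⟩⟩
      rw [Metric.mem_ball, Real.dist_eq, add_sub_cancel_left, abs_mul, hs, one_mul,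
        abs_of_nonneg h0]
      linarith
    have := hVs hmem
    simp only [mem_ofPred_eq, add_sub_cancel_left] at this
    refine this.trans ?_
    rw [norm_mul, Real.norm_eq_abs, Real.norm_eq_abs, hs, one_mul, abs_of_nonneg h0]
  refine main_aux f hf s hs t r hr c ?_ (fun h hh => hU (hsub h hh)) v hv
    (quant c v hder) (|L| + 1) ?_
  · refine hc.comp (by fun_prop) (fun h hh => hsub h hh)
  · obtain ⟨h₀, hh₀, hq⟩ := quant (fun z => val f (c z)) L hdF 1 one_pos
    refine ⟨h₀, hh₀, fun h h0 h1 h2 => ?_⟩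
    have e1 := hq h h0 h1 h2
    rw [Real.norm_eq_abs, smul_eq_mul] at e1
    have e2 : |s * h * L| = h * |L| := by
      rw [abs_mul, abs_mul, hs, one_mul, abs_of_nonneg h0]
    have e3 := abs_sub_abs_le_abs_sub (val f (c (t + s * h)) - val f (c t)) (s * h * L)
    rw [e2] at e3
    linarith

/-- **Generic nowhere differentiability along all `C¹` curves.** Let `U` be a bounded open subset
of `ℝ^d`. The set `N(U)` of all continuous functions on the closure of `U` whose restriction to
every unit speed `C¹` curve in `U` is nowhere differentiable contains a dense `G_δ` subset of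
`C(closure U)`. The functions in this dense `G_δ` set even have the stronger property `NC`: along
every continuous curve in the closure of `U` they are differentiable at no parameter at which the
curve has a nonzero derivative. -/
theorem result (d : ℕ) (U : Set (Eu d)) (_hU : IsOpen U) (hb : Bornology.IsBounded U) :
    ∃ G : Set C(closure U, ℝ), IsGδ G ∧ Dense G ∧ G ⊆ NU U ∧ G ⊆ NC U := by
  have : CompactSpace (closure U) := isCompact_iff_compactSpace.mp hb.isCompact_closure
  have hNC : (⋂ p : Fin d × ℕ, O U p.1 p.2) ⊆ NC U := fun f hf =>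
    mem_NC f fun i n => mem_iInter.mp hf (i, n)
  refine ⟨⋂ p : Fin d × ℕ, O U p.1 p.2, IsGδ.iInter_of_isOpen fun p => isOpen_O p.1 p.2,
    dense_iInter_of_isOpen (fun p => isOpen_O p.1 p.2) fun p => dense_O p.1 p.2, ?_, hNC⟩
  intro f hf I c hc t ht
  obtain ⟨hI, hI2, hc1, hmaps, hunit⟩ := hc
  have hd : DifferentiableWithinAt ℝ c I t := (hc1.differentiableOn one_ne_zero) t ht
  refine hNC hf I c hI hI2 hc1.continuousOn (fun s hs => subset_closure (hmaps hs)) t ht
    (derivWithin c I t) ?_ hd.hasDerivWithinAt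
  intro h0
  have := hunit t ht
  rw [h0, norm_zero] at this
  exact zero_ne_one this

end Pool.Agent.Results.MP_3b0c1c_an.GenericCurves
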